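import Mathlib

set_option autoImplicit false

namespace Pool.Agent.Lib.MP_66b831_nt

section cheb
variable {R : Type*} [CommRing R]

/-- the pair `(T_n(a), U_{n-1}(a))` of Chebyshev values -/
def XY (a : R) : ℕ → R × R
  | 0 => (1, 0)
  | n + 1 => (a * (XY a n).1 + (a ^ 2 - 1) * (XY a n).2, (XY a n).1 + a * (XY a n).2)

/-- `X a n = T_n(a)` -/
def X (a : R) (n : ℕ) : R := (XY a n).1

/-- `Y a n = U_{n-1}(a)` -/
def Y (a : R) (n : ℕ) : R := (XY a n).2

theorem X_zero (a : R) : X a 0 = 1 := rfl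
theorem Y_zero (a : R) : Y a 0 = 0 := rfl
theorem X_succ (a : R) (n : ℕ) : X a (n + 1) = a * X a n + (a ^ 2 - 1) * Y a n := rfl
theorem Y_succ (a : R) (n : ℕ) : Y a (n + 1) = X a n + a * Y a n := rfl
theorem X_one (a : R) : X a 1 = a := by rw [X_succ, X_zero, Y_zero]; ring
theorem Y_one (a : R) : Y a 1 = 1 := by rw [Y_succ, X_zero, Y_zero]; ring

theorem pell (a : R) (n : ℕ) : X a n ^ 2 - (a ^ 2 - 1) * Y a n ^ 2 = 1 := by
  induction n with
  | zero => rw [X_zero, Y_zero]; ring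
  | succ n ih => rw [X_succ, Y_succ]; linear_combination ih

theorem XY_add (a : R) (m n : ℕ) :
    X a (m + n) = X a m * X a n + (a ^ 2 - 1) * (Y a m * Y a n) ∧
    Y a (m + n) = X a m * Y a n + Y a m * X a n := by
  induction n with
  | zero => rw [Nat.add_zero, X_zero, Y_zero]; constructor <;> ring
  | succ n ih =>
    obtain ⟨h1, h2⟩ := ih
    rw [← Nat.add_assoc, X_succ a (m + n), Y_succ a (m + n), h1, h2, X_succ a n, Y_succ a n]
    constructor <;> ring

theorem X_add (a : R) (m n : ℕ) :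
    X a (m + n) = X a m * X a n + (a ^ 2 - 1) * (Y a m * Y a n) := (XY_add a m n).1
theorem Y_add (a : R) (m n : ℕ) :
    Y a (m + n) = X a m * Y a n + Y a m * X a n := (XY_add a m n).2

theorem X_two_mul (a : R) (n : ℕ) : X a (2 * n) = 2 * X a n ^ 2 - 1 := by
  rw [two_mul, X_add]; linear_combination (-1 : R) * pell a n
theorem Y_two_mul (a : R) (n : ℕ) : Y a (2 * n) = 2 * X a n * Y a n := by
  rw [two_mul, Y_add]; ring

theorem X_sub (a : R) (k : ℕ) :
    X a (k + 1) * X a k - (a ^ 2 - 1) * (Y a (k + 1) * Y a k) = a := by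
  rw [X_succ, Y_succ]; linear_combination a * pell a k

theorem Y_sub (a : R) (k : ℕ) :
    Y a (k + 1) * X a k - X a (k + 1) * Y a k = 1 := by
  rw [X_succ, Y_succ]; linear_combination pell a k

theorem base_change (a : R) (n : ℕ) :
    X a (2 * n) = X (2 * a ^ 2 - 1) n ∧ Y a (2 * n) = 2 * a * Y (2 * a ^ 2 - 1) n := by
  induction n with
  | zero => simp [X_zero, Y_zero]
  | succ n ih =>
    obtain ⟨h1, h2⟩ := ih
    have e : 2 * (n + 1) = 2 * n + 1 + 1 := by ring
    rw [e, X_succ a (2 * n + 1), Y_succ a (2 * n + 1), X_succ a (2 * n), Y_succ a (2 * n), h1, h2,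
      X_succ _ n, Y_succ _ n]
    constructor <;> ring

theorem map_XY {S : Type*} [CommRing S] (f : R →+* S) (a : R) (n : ℕ) :
    f (X a n) = X (f a) n ∧ f (Y a n) = Y (f a) n := by
  induction n with
  | zero => simp [X_zero, Y_zero]
  | succ n ih =>
    obtain ⟨h1, h2⟩ := ih
    rw [X_succ, Y_succ, X_succ, Y_succ]
    simp only [map_add, map_mul, map_sub, map_pow, map_one, h1, h2]
    exact ⟨trivial, trivial⟩

theorem XY_at_one (n : ℕ) : X (1 : R) n = 1 ∧ Y (1 : R) n = n := by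
  induction n with
  | zero => simp [X_zero, Y_zero]
  | succ n ih =>
    obtain ⟨h1, h2⟩ := ih
    rw [X_succ, Y_succ, h1, h2]
    constructor
    · ring
    · push_cast; ring

end cheb

theorem pos_XY (y : ℤ) (hy : 1 ≤ y) (n : ℕ) : 1 ≤ X y n ∧ 0 ≤ Y y n := by
  induction n with
  | zero => simp [X_zero, Y_zero]
  | succ n ih =>
    obtain ⟨h1, h2⟩ := ih
    rw [X_succ, Y_succ]
    have h3 : 0 ≤ y ^ 2 - 1 := by nlinarith
    have h4 : 0 ≤ (y ^ 2 - 1) * Y y n := mul_nonneg h3 h2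
    constructor <;> nlinarith

theorem Y_succ_pos (y : ℤ) (hy : 1 ≤ y) (n : ℕ) : 1 ≤ Y y (n + 1) := by
  obtain ⟨h1, h2⟩ := pos_XY y hy n
  rw [Y_succ]
  nlinarith

theorem Y_eq_zero (y : ℤ) (hy : 1 ≤ y) (n : ℕ) (h : Y y n = 0) : n = 0 := by
  cases n with
  | zero => rfl
  | succ n =>
    have := Y_succ_pos y hy n
    omega

end Pool.Agent.Lib.MP_66b831_nt
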