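import Mathlib
import Pool.Agent.Lib.MP_66b831_nt.Cheb

set_option autoImplicit false

namespace Pool.Agent.Lib.MP_66b831_nt

open Zsqrtd

/-- parity of real parts: `d` even, `a = ⟨1, 1⟩` -/
theorem parity_XY (e : ℤ) (n : ℕ) :
    (∃ u : ℤ, (X (⟨1, 1⟩ : Zsqrtd (2 * e)) n).re = 2 * u + 1) ∧
    (∃ u : ℤ, (Y (⟨1, 1⟩ : Zsqrtd (2 * e)) n).re = 2 * u + n) := by
  induction n with
  | zero => exact ⟨⟨0, by simp [X_zero]⟩, ⟨0, by simp [Y_zero]⟩⟩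
  | succ n ih =>
    obtain ⟨⟨u, hu⟩, ⟨v, hv⟩⟩ := ih
    constructor
    · rw [X_succ]
      refine ⟨u + e * (X (⟨1, 1⟩ : Zsqrtd (2 * e)) n).im + e * (Y (⟨1, 1⟩ : Zsqrtd (2 * e)) n).re
        + 2 * e * (Y (⟨1, 1⟩ : Zsqrtd (2 * e)) n).im, ?_⟩
      simp only [pow_two, re_add, re_mul, re_sub, im_sub, im_mul, re_one, im_one]
      linear_combination hu
    · rw [Y_succ]
      refine ⟨u + v + e * (Y (⟨1, 1⟩ : Zsqrtd (2 * e)) n).im, ?_⟩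
      simp only [re_add, re_mul]
      push_cast
      linear_combination hu + hv

theorem two_pow_Y (e : ℤ) (n : ℕ) (hn : 1 ≤ n) :
    ∃ (s : ℕ) (w : Zsqrtd (2 * e)), Y (⟨1, 1⟩ : Zsqrtd (2 * e)) n = 2 ^ s * w ∧
      ∃ u : ℤ, w.re = 2 * u + 1 := by
  induction n using Nat.strong_induction_on with
  | _ n ih =>
    rcases Nat.even_or_odd' n with ⟨m, hm | hm⟩
    · have hm1 : 1 ≤ m := by omega
      obtain ⟨s, w, h1, u, hu⟩ := ih m (by omega) hm1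
      obtain ⟨⟨v, hv⟩, -⟩ := parity_XY e m
      refine ⟨s + 1, X (⟨1, 1⟩ : Zsqrtd (2 * e)) m * w, ?_, ?_⟩
      · rw [hm, Y_two_mul, h1]; ring
      · refine ⟨2 * u * v + u + v + e * (X (⟨1, 1⟩ : Zsqrtd (2 * e)) m).im * w.im, ?_⟩
        rw [re_mul, hv, hu]; ring
    · obtain ⟨-, ⟨u, hu⟩⟩ := parity_XY e n
      refine ⟨0, Y (⟨1, 1⟩ : Zsqrtd (2 * e)) n, by ring, u + m, ?_⟩
      rw [hu, hm]; push_cast; ring

theorem X_re_ne_one (e : ℤ) (he : e ≠ 0) (k : ℕ) (hk : 1 ≤ k) :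
    (X (⟨1, 1⟩ : Zsqrtd (2 * e)) (2 * k + 1)).re ≠ 1 := by
  intro h
  obtain ⟨s, w, h1, u, hu⟩ := two_pow_Y e k hk
  obtain ⟨t, w', h2, v, hv⟩ := two_pow_Y e (k + 1) (by omega)
  have key : X (⟨1, 1⟩ : Zsqrtd (2 * e)) (2 * k + 1) =
      ⟨1, 1⟩ + (2 : ℤ) * ((2 : ℤ) ^ (s + t) : ℤ) * ((⟨2 * e, 2⟩ : Zsqrtd (2 * e)) * (w * w')) := by
    have e1 : 2 * k + 1 = (k + 1) + k := by ring
    have e2 := X_sub (⟨1, 1⟩ : Zsqrtd (2 * e)) k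
    have e3 : (⟨2 * e, 2⟩ : Zsqrtd (2 * e)) = (⟨1, 1⟩ : Zsqrtd (2 * e)) ^ 2 - 1 := by
      ext
      · simp only [pow_two, re_sub, re_mul, re_one]; ring
      · simp only [pow_two, im_sub, im_mul, im_one]; ring
    rw [e1, X_add, e3]
    rw [h1, h2] at e2 ⊢
    push_cast
    linear_combination e2
  have key2 := congrArg Zsqrtd.re key
  rw [h, re_add, mul_assoc, re_smul, re_smul] at key2
  simp only [re_mul, im_mul, hu, hv] at key2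
  have h3 : (2 : ℤ) ^ (s + t) ≠ 0 := pow_ne_zero _ (by norm_num)
  have h4 : (2 : ℤ) * (2 ^ (s + t) * ((2 * e) * ((2 * u + 1) * (2 * v + 1) + 2 * e * w.im * w'.im
      + 2 * ((2 * u + 1) * w'.im + w.im * (2 * v + 1))))) = 0 := by
    linear_combination -key2
  have h5 : ((2 * u + 1) * (2 * v + 1) + 2 * e * w.im * w'.im
      + 2 * ((2 * u + 1) * w'.im + w.im * (2 * v + 1))) = 0 := by
    rcases mul_eq_zero.mp h4 with h | h
    · norm_num at h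
    rcases mul_eq_zero.mp h with h | h
    · exact absurd h h3
    rcases mul_eq_zero.mp h with h | h
    · exfalso; apply he; omega
    · exact h
  have h6 : (2 : ℤ) * (2 * u * v + u + v + e * w.im * w'.im + (2 * u + 1) * w'.im
      + w.im * (2 * v + 1)) + 1 = 0 := by linear_combination h5
  omega

/-- the state of the descent -/
def Good (y : ℤ) (k : ℕ) (p1 p2 q1 q2 : ℤ) : Prop :=
  X (⟨1, 1⟩ : Zsqrtd (2 * (1 - y))) (2 * k + 1) =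
    ⟨p1 ^ 2 - (y ^ 2 - 1) * p2 ^ 2, q1 ^ 2 - (y ^ 2 - 1) * q2 ^ 2⟩ ∧
  Y (⟨1, 1⟩ : Zsqrtd (2 * (1 - y))) (2 * k + 1) =
    ⟨p1 * q1 - (y ^ 2 - 1) * (p2 * q2) + (y - 1) * (p2 * q1 - p1 * q2), p2 * q1 - p1 * q2⟩ ∧
  (k = 0 → p1 = 1 ∧ p2 = 0)

theorem good_zero (y : ℤ) : Good y 0 1 0 1 0 := by
  refine ⟨?_, ?_, fun _ => ⟨rfl, rfl⟩⟩
  · rw [Nat.mul_zero, Nat.zero_add, X_one]
    ext
    · simp
    · simp
  · rw [Nat.mul_zero, Nat.zero_add, Y_one]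
    ext
    · simp
    · simp

theorem good_step (y p1 p2 q1 q2 a1 a2 b1 b2 : ℤ) (k : ℕ) (hg : Good y k a1 a2 b1 b2)
    (h1 : p1 = (2 * y - 1) * a1 + 2 * (y ^ 2 - 1) * a2 + 2 * (y - 1) * b1 + 2 * (y ^ 2 - 1) * b2)
    (h2 : p2 = (2 * y - 1) * a2 + 2 * a1 + 2 * (y - 1) * b2 + 2 * b1)
    (h3 : q1 = 2 * y * a1 + 2 * (y ^ 2 - 1) * a2 + (2 * y - 1) * b1 + 2 * (y ^ 2 - 1) * b2)
    (h4 : q2 = 2 * y * a2 + 2 * a1 + (2 * y - 1) * b2 + 2 * b1) :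
    Good y (k + 1) p1 p2 q1 q2 := by
  obtain ⟨hX, hY, -⟩ := hg
  have hX2 : X (⟨1, 1⟩ : Zsqrtd (2 * (1 - y))) 2 = ⟨1 + 4 * (1 - y), 4⟩ := by
    have := X_two_mul (⟨1, 1⟩ : Zsqrtd (2 * (1 - y))) 1
    rw [X_one] at this
    rw [show (2 : ℕ) = 2 * 1 by norm_num, this]
    ext
    · simp only [pow_two, re_sub, re_mul, re_one, im_mul, re_ofNat, im_ofNat]; ring
    · simp only [pow_two, im_sub, re_mul, im_one, im_mul, re_ofNat, im_ofNat]; ring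
  have hY2 : Y (⟨1, 1⟩ : Zsqrtd (2 * (1 - y))) 2 = ⟨2, 2⟩ := by
    have := Y_two_mul (⟨1, 1⟩ : Zsqrtd (2 * (1 - y))) 1
    rw [X_one, Y_one] at this
    rw [show (2 : ℕ) = 2 * 1 by norm_num, this]
    ext
    · simp only [re_mul, re_one, im_one, im_mul, re_ofNat, im_ofNat]; ring
    · simp only [re_mul, re_one, im_one, im_mul, re_ofNat, im_ofNat]; ring
  subst h1 h2 h3 h4
  refine ⟨?_, ?_, fun h => by omega⟩
  · rw [show 2 * (k + 1) + 1 = (2 * k + 1) + 2 by ring, X_add, hX, hY, hX2, hY2]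
    ext
    · simp only [pow_two, re_add, re_sub, re_mul, re_one, im_mul, im_sub, im_one]; ring
    · simp only [pow_two, im_add, im_sub, re_mul, im_one, im_mul, re_sub, re_one]; ring
  · rw [show 2 * (k + 1) + 1 = (2 * k + 1) + 2 by ring, Y_add, hX, hY, hX2, hY2]
    ext
    · simp only [re_add, re_mul]; ring
    · simp only [im_add, im_mul]; ring

/-- the real-embedding estimate for the base case -/
theorem base_case (y p1 p2 q1 q2 : ℤ) (hy : 2 ≤ y) (s : ℝ) (hs0 : 0 ≤ s)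
    (hs : s ^ 2 = (y : ℝ) ^ 2 - 1)
    (e1 : y * (p1 ^ 2 + (y ^ 2 - 1) * p2 ^ 2) + 2 * (y ^ 2 - 1) * p1 * p2
      - (y - 1) * (q1 ^ 2 + (y ^ 2 - 1) * q2 ^ 2) - 2 * (y ^ 2 - 1) * q1 * q2 = 1)
    (e2 : (p1 ^ 2 + (y ^ 2 - 1) * p2 ^ 2) + 2 * y * p1 * p2
      - (q1 ^ 2 + (y ^ 2 - 1) * q2 ^ 2) - 2 * (y - 1) * q1 * q2 = 0)
    (hP : 0 < (p1 : ℝ) + p2 * s) (hQ1 : -1 ≤ (q1 : ℝ) + q2 * s) (hQ2 : (q1 : ℝ) + q2 * s ≤ 1) :
    p1 = 1 ∧ p2 = 0 ∧ q2 = 0 ∧ (q1 = 1 ∨ q1 = -1) := by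
  have hyR : (2 : ℝ) ≤ y := by exact_mod_cast hy
  have e1R : (y : ℝ) * (p1 ^ 2 + (y ^ 2 - 1) * p2 ^ 2) + 2 * (y ^ 2 - 1) * p1 * p2
      - (y - 1) * (q1 ^ 2 + (y ^ 2 - 1) * q2 ^ 2) - 2 * (y ^ 2 - 1) * q1 * q2 = 1 := by
    exact_mod_cast e1
  have e2R : ((p1 : ℝ) ^ 2 + (y ^ 2 - 1) * p2 ^ 2) + 2 * y * p1 * p2
      - (q1 ^ 2 + (y ^ 2 - 1) * q2 ^ 2) - 2 * (y - 1) * q1 * q2 = 0 := by
    exact_mod_cast e2
  -- s is close to y
  have hs1 : (y : ℝ) - 0.3 ≤ s := by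
    by_contra h
    push Not at h
    nlinarith
  have hsy : s ≤ y := by
    by_contra h
    push Not at h
    nlinarith
  -- conjugate equation
  have hconj : (y - s) * ((p1 : ℝ) - p2 * s) ^ 2 + (1 - (y - s)) * ((q1 : ℝ) - q2 * s) ^ 2 = 1 := by
    linear_combination e1R - s * e2R + (y * (p2 : ℝ) ^ 2 + 2 * (p1 : ℝ) * p2 - s * p2 ^ 2
      + q2 ^ 2 - y * q2 ^ 2 - 2 * q1 * q2 + s * q2 ^ 2) * hs
  have hbar : 0.7 * ((q1 : ℝ) - q2 * s) ^ 2 ≤ 1 := by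
    nlinarith [sq_nonneg ((p1 : ℝ) - p2 * s), sq_nonneg ((q1 : ℝ) - q2 * s)]
  have hsq : ((q1 : ℝ) + q2 * s) ^ 2 ≤ 1 := by nlinarith
  have hsum : 2 * ((q1 : ℝ) ^ 2 + (y ^ 2 - 1) * q2 ^ 2) =
      ((q1 : ℝ) + q2 * s) ^ 2 + ((q1 : ℝ) - q2 * s) ^ 2 := by
    linear_combination (-2 * (q2 : ℝ) ^ 2) * hs
  have hlt : ((q1 : ℝ) ^ 2 + (y ^ 2 - 1) * q2 ^ 2) < 2 := by nlinarith
  have hltZ : q1 ^ 2 + (y ^ 2 - 1) * q2 ^ 2 < 2 := by exact_mod_cast hlt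
  have hD3 : 3 ≤ y ^ 2 - 1 := by nlinarith
  have hq2 : q2 = 0 := by
    by_contra h
    have h1 : 1 ≤ q2 ^ 2 := by
      have := sq_pos_of_ne_zero h
      omega
    have h2 : 3 * 1 ≤ (y ^ 2 - 1) * q2 ^ 2 := mul_le_mul hD3 h1 (by norm_num) (by omega)
    have h3 := sq_nonneg q1
    omega
  subst hq2
  have hq1 : q1 = 0 ∨ q1 = 1 ∨ q1 = -1 := by
    have h1 : q1 ^ 2 < 2 := by nlinarith
    have h2 : q1 < 2 := by nlinarith
    have h3 : -2 < q1 := by nlinarith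
    omega
  have hcomb : -2 * (p1 * p2) + q1 ^ 2 = 1 := by
    linear_combination e1 - y * e2
  rcases hq1 with h0 | h1
  · subst h0
    exfalso
    have : -2 * (p1 * p2) = 1 := by linear_combination hcomb
    omega
  · have hq : q1 ^ 2 = 1 := by rcases h1 with h | h <;> rw [h] <;> norm_num
    have hpp : p1 * p2 = 0 := by
      rw [hq] at hcomb; omega
    have hA : p1 ^ 2 + (y ^ 2 - 1) * p2 ^ 2 = 1 := by
      linear_combination e2 - 2 * y * hpp + hq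
    have hp2 : p2 = 0 := by
      by_contra h
      have h1 : 1 ≤ p2 ^ 2 := by
        have := sq_pos_of_ne_zero h
        omega
      have h2 : 3 * 1 ≤ (y ^ 2 - 1) * p2 ^ 2 := mul_le_mul hD3 h1 (by norm_num) (by omega)
      have h3 := sq_nonneg p1
      omega
    subst hp2
    have hp1 : 0 < p1 := by
      have : (0 : ℝ) < p1 := by simpa using hP
      exact_mod_cast this
    have hp1' : p1 = 1 := by nlinarith
    exact ⟨hp1', rfl, rfl, h1⟩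

theorem real_step (α P Q : ℝ) (hα : 3.7 ≤ α) (hP : 0 < P) (hQ : 1 < Q)
    (h : α * P ^ 2 - (α - 1) * Q ^ 2 = 1) :
    0 < (2 * α - 1) * P - 2 * (α - 1) * Q ∧ -1 ≤ (2 * α - 1) * Q - 2 * α * P ∧
      (2 * α - 1) * Q - 2 * α * P ≤ Q / 2 := by
  have hα1 : 0 < α - 1 := by linarith
  have hα0 : 0 < α := by linarith
  have hα2 : 0 < 2 * α - 1 := by linarith
  have hQ2 : 1 ≤ Q ^ 2 := by nlinarith
  refine ⟨?_, ?_, ?_⟩
  · by_contra hc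
    push Not at hc
    have h1 : (2 * α - 1) * P ≤ 2 * (α - 1) * Q := by linarith
    have h2 : ((2 * α - 1) * P) ^ 2 ≤ (2 * (α - 1) * Q) ^ 2 :=
      pow_le_pow_left₀ (by positivity) h1 2
    have h3 := mul_le_mul_of_nonneg_left h2 hα0.le
    have h4 : (2 * α - 1) ^ 2 + (α - 1) * Q ^ 2 ≤ 0 := by
      linear_combination h3 - (2 * α - 1) ^ 2 * h
    have h5 : 0 < (2 * α - 1) ^ 2 + (α - 1) * Q ^ 2 := by positivity
    linarith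
  · by_contra hc
    push Not at hc
    have h1 : (2 * α - 1) * Q + 1 < 2 * α * P := by linarith
    have h0 : 0 ≤ (2 * α - 1) * Q + 1 := by positivity
    have h2 : ((2 * α - 1) * Q + 1) ^ 2 < (2 * α * P) ^ 2 := pow_lt_pow_left₀ h1 h0 (by norm_num)
    have h4 : Q ^ 2 + 2 * ((2 * α - 1) * Q) + 1 - 4 * α < 0 := by
      linear_combination h2 + 4 * α * h
    have h5 : (2 * α - 1) * 1 ≤ (2 * α - 1) * Q := mul_le_mul_of_nonneg_left hQ.le hα2.le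
    linarith
  · by_contra hc
    push Not at hc
    have h1 : 2 * α * P < (2 * α - 3 / 2) * Q := by linarith
    have h0 : 0 ≤ 2 * α * P := by positivity
    have h2 : (2 * α * P) ^ 2 < ((2 * α - 3 / 2) * Q) ^ 2 := pow_lt_pow_left₀ h1 h0 (by norm_num)
    have h4 : 4 * α + (2 * α - 9 / 4) * Q ^ 2 < 0 := by
      linear_combination h2 - 4 * α * h
    have h5 : 0 < 2 * α - 9 / 4 := by linarith
    have h6 : 0 < 4 * α + (2 * α - 9 / 4) * Q ^ 2 := by positivity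
    linarith

theorem descent (y : ℤ) (hy : 2 ≤ y) (s : ℝ) (hs0 : 0 ≤ s)
    (hs : s ^ 2 = (y : ℝ) ^ 2 - 1) (n : ℕ) : ∀ (p1 p2 q1 q2 : ℤ),
    (y * (p1 ^ 2 + (y ^ 2 - 1) * p2 ^ 2) + 2 * (y ^ 2 - 1) * p1 * p2
      - (y - 1) * (q1 ^ 2 + (y ^ 2 - 1) * q2 ^ 2) - 2 * (y ^ 2 - 1) * q1 * q2 = 1) →
    ((p1 ^ 2 + (y ^ 2 - 1) * p2 ^ 2) + 2 * y * p1 * p2
      - (q1 ^ 2 + (y ^ 2 - 1) * q2 ^ 2) - 2 * (y - 1) * q1 * q2 = 0) →
    0 < (p1 : ℝ) + p2 * s → 0 ≤ (q1 : ℝ) + q2 * s → (q1 : ℝ) + q2 * s ≤ 2 ^ n →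
    ∃ k, Good y k p1 p2 q1 q2 := by
  have hyR : (2 : ℝ) ≤ y := by exact_mod_cast hy
  have hs1 : (y : ℝ) - 0.3 ≤ s := by
    by_contra h
    push Not at h
    nlinarith
  induction n with
  | zero =>
    intro p1 p2 q1 q2 e1 e2 hP hQ0 hQ1
    obtain ⟨h1, h2, h3, h4⟩ := base_case y p1 p2 q1 q2 hy s hs0 hs e1 e2 hP (by linarith)
      (by simpa using hQ1)
    subst h1 h2 h3
    rcases h4 with h | h
    · subst h
      exact ⟨0, good_zero y⟩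
    · subst h
      exfalso
      norm_num at hQ0
  | succ n ih =>
    intro p1 p2 q1 q2 e1 e2 hP hQ0 hQ1
    by_cases hQ : (q1 : ℝ) + q2 * s ≤ 1
    · obtain ⟨h1, h2, h3, h4⟩ := base_case y p1 p2 q1 q2 hy s hs0 hs e1 e2 hP (by linarith) hQ
      subst h1 h2 h3
      rcases h4 with h | h
      · subst h
        exact ⟨0, good_zero y⟩
      · subst h
        exfalso
        norm_num at hQ0
    · push Not at hQ
      -- the previous pair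
      obtain ⟨a1, ha1⟩ : ∃ a1, a1 = (2 * y - 1) * p1 + 2 * (y ^ 2 - 1) * p2 - 2 * (y - 1) * q1
        - 2 * (y ^ 2 - 1) * q2 := ⟨_, rfl⟩
      obtain ⟨a2, ha2⟩ : ∃ a2, a2 = (2 * y - 1) * p2 + 2 * p1 - 2 * (y - 1) * q2 - 2 * q1 :=
        ⟨_, rfl⟩
      obtain ⟨b1, hb1⟩ : ∃ b1, b1 = (2 * y - 1) * q1 + 2 * (y ^ 2 - 1) * q2 - 2 * y * p1
        - 2 * (y ^ 2 - 1) * p2 := ⟨_, rfl⟩
      obtain ⟨b2, hb2⟩ : ∃ b2, b2 = (2 * y - 1) * q2 + 2 * q1 - 2 * y * p2 - 2 * p1 :=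
        ⟨_, rfl⟩
      have f1 : y * (a1 ^ 2 + (y ^ 2 - 1) * a2 ^ 2) + 2 * (y ^ 2 - 1) * a1 * a2
          - (y - 1) * (b1 ^ 2 + (y ^ 2 - 1) * b2 ^ 2) - 2 * (y ^ 2 - 1) * b1 * b2 = 1 := by
        rw [ha1, ha2, hb1, hb2]; linear_combination e1
      have f2 : (a1 ^ 2 + (y ^ 2 - 1) * a2 ^ 2) + 2 * y * a1 * a2
          - (b1 ^ 2 + (y ^ 2 - 1) * b2 ^ 2) - 2 * (y - 1) * b1 * b2 = 0 := by
        rw [ha1, ha2, hb1, hb2]; linear_combination e2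
      -- real versions
      obtain ⟨P, hPdef⟩ : ∃ P : ℝ, P = (p1 : ℝ) + p2 * s := ⟨_, rfl⟩
      obtain ⟨Q, hQdef⟩ : ∃ Q : ℝ, Q = (q1 : ℝ) + q2 * s := ⟨_, rfl⟩
      obtain ⟨α, hα⟩ : ∃ α : ℝ, α = (y : ℝ) + s := ⟨_, rfl⟩
      have hα3 : (3.7 : ℝ) ≤ α := by rw [hα]; linarith
      have e1R : (y : ℝ) * (p1 ^ 2 + (y ^ 2 - 1) * p2 ^ 2) + 2 * (y ^ 2 - 1) * p1 * p2
          - (y - 1) * (q1 ^ 2 + (y ^ 2 - 1) * q2 ^ 2) - 2 * (y ^ 2 - 1) * q1 * q2 = 1 := by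
        exact_mod_cast e1
      have e2R : ((p1 : ℝ) ^ 2 + (y ^ 2 - 1) * p2 ^ 2) + 2 * y * p1 * p2
          - (q1 ^ 2 + (y ^ 2 - 1) * q2 ^ 2) - 2 * (y - 1) * q1 * q2 = 0 := by
        exact_mod_cast e2
      have hmain : α * P ^ 2 - (α - 1) * Q ^ 2 = 1 := by
        rw [hα, hPdef, hQdef]
        linear_combination e1R + s * e2R + (y * (p2 : ℝ) ^ 2 + 2 * (p1 : ℝ) * p2 + s * p2 ^ 2
          + q2 ^ 2 - y * q2 ^ 2 - 2 * q1 * q2 - s * q2 ^ 2) * hs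
      rw [← hPdef] at hP
      rw [← hQdef] at hQ0 hQ1 hQ
      have hA : (a1 : ℝ) + a2 * s = (2 * α - 1) * P - 2 * (α - 1) * Q := by
        rw [ha1, ha2, hα, hPdef, hQdef]
        push_cast
        linear_combination (2 * (q2 : ℝ) - 2 * p2) * hs
      have hB : (b1 : ℝ) + b2 * s = (2 * α - 1) * Q - 2 * α * P := by
        rw [hb1, hb2, hα, hPdef, hQdef]
        push_cast
        linear_combination (2 * (p2 : ℝ) - 2 * q2) * hs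
      obtain ⟨r1, r2, r3⟩ := real_step α P Q hα3 hP hQ hmain
      rw [← hA] at r1
      rw [← hB] at r2 r3
      have hA0 := r1
      have hBlo := r2
      have hBhi := r3
      have hB0 : 0 ≤ (b1 : ℝ) + b2 * s := by
        by_contra h
        push Not at h
        obtain ⟨h1, h2, h3, h4⟩ := base_case y a1 a2 b1 b2 hy s hs0 hs f1 f2 hA0 hBlo
          (by linarith)
        rcases h4 with h4 | h4
        · rw [h4, h3] at h
          norm_num at h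
        · rw [h1, h2] at hA
          rw [h3, h4] at hB
          norm_num at hA hB
          -- Q = 2α·1 + (2α-1)(-1) = 1
          have : Q = 1 := by
            linear_combination (-2 * α) * hA - (2 * α - 1) * hB
          linarith
      have hBn : (b1 : ℝ) + b2 * s ≤ 2 ^ n := by
        have : Q / 2 ≤ 2 ^ n := by
          rw [pow_succ] at hQ1
          linarith
        linarith
      obtain ⟨k, hk⟩ := ih a1 a2 b1 b2 f1 f2 hA0 hB0 hBn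
      refine ⟨k + 1, good_step y p1 p2 q1 q2 a1 a2 b1 b2 k hk ?_ ?_ ?_ ?_⟩
      · rw [ha1, ha2, hb1, hb2]; ring
      · rw [ha1, ha2, hb1, hb2]; ring
      · rw [ha1, ha2, hb1, hb2]; ring
      · rw [ha1, ha2, hb1, hb2]; ring

theorem theoremM (y : ℤ) (hy : 2 ≤ y) (l : ℕ) (a : ℤ)
    (ha : a ^ 2 = Y y (2 * l + 1) + Y y (2 * l)) : l = 0 := by
  wlog ha0 : 0 ≤ a with H
  · exact H y hy l (-a) (by rw [← ha]; ring) (by omega)
  have hpell := pell y l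
  obtain ⟨x, hx⟩ : ∃ x, x = X y l := ⟨_, rfl⟩
  obtain ⟨v, hv⟩ : ∃ v, v = Y y l := ⟨_, rfl⟩
  rw [← hx, ← hv] at hpell
  rw [Y_succ, X_two_mul, Y_two_mul, ← hx, ← hv] at ha
  have ha' : a ^ 2 = x ^ 2 + (y ^ 2 - 1) * v ^ 2 + 2 * (y + 1) * x * v := by
    linear_combination ha + hpell
  obtain ⟨hx0, hv0⟩ := pos_XY y (by omega) l
  rw [← hx] at hx0
  rw [← hv] at hv0
  obtain ⟨s, hs0, hs⟩ : ∃ s : ℝ, 0 ≤ s ∧ s ^ 2 = (y : ℝ) ^ 2 - 1 := by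
    refine ⟨Real.sqrt ((y : ℝ) ^ 2 - 1), Real.sqrt_nonneg _, Real.sq_sqrt ?_⟩
    have : (2 : ℝ) ≤ y := by exact_mod_cast hy
    nlinarith
  have e1 : y * ((x ^ 2 + (y ^ 2 - 1) * v ^ 2) ^ 2 + (y ^ 2 - 1) * (2 * x * v) ^ 2)
      + 2 * (y ^ 2 - 1) * (x ^ 2 + (y ^ 2 - 1) * v ^ 2) * (2 * x * v)
      - (y - 1) * ((a * x) ^ 2 + (y ^ 2 - 1) * (a * v) ^ 2)
      - 2 * (y ^ 2 - 1) * (a * x) * (a * v) = 1 := by
    linear_combination (-((y - 1) * (x ^ 2 + (y ^ 2 - 1) * v ^ 2)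
      + 2 * (y ^ 2 - 1) * x * v)) * ha' + (x ^ 2 - (y ^ 2 - 1) * v ^ 2 + 1) * hpell
  have e2 : ((x ^ 2 + (y ^ 2 - 1) * v ^ 2) ^ 2 + (y ^ 2 - 1) * (2 * x * v) ^ 2)
      + 2 * y * (x ^ 2 + (y ^ 2 - 1) * v ^ 2) * (2 * x * v)
      - ((a * x) ^ 2 + (y ^ 2 - 1) * (a * v) ^ 2)
      - 2 * (y - 1) * (a * x) * (a * v) = 0 := by
    linear_combination (-((x ^ 2 + (y ^ 2 - 1) * v ^ 2) + 2 * (y - 1) * x * v)) * ha'
  have hx0R : (1 : ℝ) ≤ x := by exact_mod_cast hx0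
  have hv0R : (0 : ℝ) ≤ v := by exact_mod_cast hv0
  have ha0R : (0 : ℝ) ≤ a := by exact_mod_cast ha0
  have hD : (0 : ℝ) ≤ (y : ℝ) ^ 2 - 1 := by rw [← hs]; positivity
  have hP : 0 < ((x ^ 2 + (y ^ 2 - 1) * v ^ 2 : ℤ) : ℝ) + ((2 * x * v : ℤ) : ℝ) * s := by
    push_cast
    have h1 : (0 : ℝ) < (x : ℝ) ^ 2 := by positivity
    have h2 : 0 ≤ ((y : ℝ) ^ 2 - 1) * (v : ℝ) ^ 2 := by positivity
    have h3 : 0 ≤ 2 * (x : ℝ) * v * s := by positivity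
    linarith
  have hQ : 0 ≤ ((a * x : ℤ) : ℝ) + ((a * v : ℤ) : ℝ) * s := by
    push_cast
    positivity
  obtain ⟨n, hn⟩ := pow_unbounded_of_one_lt (((a * x : ℤ) : ℝ) + ((a * v : ℤ) : ℝ) * s)
    (by norm_num : (1 : ℝ) < 2)
  obtain ⟨k, hX, hY, hk⟩ := descent y hy s hs0 hs n _ _ _ _ e1 e2 hP hQ hn.le
  rcases Nat.eq_zero_or_pos k with h | h
  · obtain ⟨-, h2⟩ := hk h
    apply Y_eq_zero y (by omega) l
    rw [← hv]
    have hx1 : x ≠ 0 := by omega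
    rcases mul_eq_zero.mp h2 with h3 | h3
    · rcases mul_eq_zero.mp h3 with h4 | h4
      · norm_num at h4
      · exact absurd h4 hx1
    · exact h3
  · exfalso
    apply X_re_ne_one (1 - y) (by omega) k h
    rw [hX]
    show (x ^ 2 + (y ^ 2 - 1) * v ^ 2) ^ 2 - (y ^ 2 - 1) * (2 * x * v) ^ 2 = 1
    linear_combination (x ^ 2 - (y ^ 2 - 1) * v ^ 2 + 1) * hpell

end Pool.Agent.Lib.MP_66b831_nt
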