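import Mathlib
import Pool.Agent.Lib.MP_66b831_nt.ThmM

set_option autoImplicit false

namespace Pool.Agent.Lib.MP_66b831_nt

theorem sq_of_coprime {a b c : ℤ} (h : IsCoprime a b) (ha : 0 ≤ a) (heq : a * b = c ^ 2) :
    ∃ r : ℤ, r ^ 2 = a := by
  obtain ⟨a0, h1 | h1⟩ := Int.sq_of_isCoprime h heq
  · exact ⟨a0, h1.symm⟩
  · have h2 : a0 ^ 2 = 0 := by
      have := sq_nonneg a0
      omega
    exact ⟨a0, by omega⟩

theorem Y_rec {R : Type*} [CommRing R] (a : R) (n : ℕ) :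
    Y a (n + 2) = 2 * a * Y a (n + 1) - Y a n := by
  rw [Y_succ a (n + 1), X_succ a n, Y_succ a n]; ring

/-- period six when `2 a = 1` -/
theorem period_six {R : Type*} [CommRing R] (a : R) (ha : 2 * a = 1) (l : ℕ) :
    Y a (6 * l) = 0 ∧ Y a (6 * l + 1) = 1 := by
  induction l with
  | zero => exact ⟨by simp [Y_zero], by simp [Y_one]⟩
  | succ l ih =>
    obtain ⟨h1, h2⟩ := ih
    have e2 := Y_rec a (6 * l)
    have e3 := Y_rec a (6 * l + 1)
    have e4 := Y_rec a (6 * l + 2)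
    have e5 := Y_rec a (6 * l + 3)
    have e6 := Y_rec a (6 * l + 4)
    have e7 := Y_rec a (6 * l + 5)
    simp only [Nat.add_assoc, Nat.reduceAdd] at e2 e3 e4 e5 e6 e7
    rw [h1, h2, ha] at e2
    rw [e2, h2, ha] at e3
    rw [e3, e2, ha] at e4
    rw [e4, e3, ha] at e5
    rw [e5, e4, ha] at e6
    rw [e6, e5, ha] at e7
    rw [show 6 * (l + 1) = 6 * l + 6 by ring, show 6 * l + 6 + 1 = 6 * l + 7 by ring, e7, e6]
    constructor <;> ring

/-- `W_k ≡ -1` when `k ≡ 3, 5` modulo six and `2 a = 1` -/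
theorem W_period {R : Type*} [CommRing R] (a : R) (ha : 2 * a = 1) (l : ℕ) :
    Y a (6 * l + 4) + Y a (6 * l + 3) = -1 ∧ Y a (6 * l + 6) + Y a (6 * l + 5) = -1 := by
  obtain ⟨h1, h2⟩ := period_six a ha l
  have e2 := Y_rec a (6 * l)
  have e3 := Y_rec a (6 * l + 1)
  have e4 := Y_rec a (6 * l + 2)
  have e5 := Y_rec a (6 * l + 3)
  have e6 := Y_rec a (6 * l + 4)
  simp only [Nat.add_assoc, Nat.reduceAdd] at e2 e3 e4 e5 e6
  rw [h1, h2, ha] at e2
  rw [e2, h2, ha] at e3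
  rw [e3, e2, ha] at e4
  rw [e4, e3, ha] at e5
  rw [e5, e4, ha] at e6
  rw [e6, e5, e4, e3]
  constructor <;> ring

/-- `-1` is not a square modulo `2 y - 1` for even `y ≥ 2`, applied to `W_k` -/
theorem W_not_sq_mod (y : ℤ) (hy : 2 ≤ y) (u : ℤ) (hu : y = 2 * u) (a : ℤ) (l : ℕ) :
    a ^ 2 ≠ Y y (6 * l + 4) + Y y (6 * l + 3) ∧ a ^ 2 ≠ Y y (6 * l + 6) + Y y (6 * l + 5) := by
  obtain ⟨n, hn⟩ : ∃ n : ℕ, (n : ℤ) = 2 * y - 1 := ⟨(2 * y - 1).toNat, by omega⟩
  have h4 : n % 4 = 3 := by omega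
  have hodd : Odd n := by
    rw [Nat.odd_iff]; omega
  have hJ : jacobiSym (-1) n = -1 := by
    rw [jacobiSym.at_neg_one hodd, ZMod.χ₄_nat_three_mod_four h4]
  have hns := ZMod.nonsquare_of_jacobiSym_eq_neg_one hJ
  have h2 : 2 * ((y : ℤ) : ZMod n) = 1 := by
    have h1 : (((n : ℤ)) : ZMod n) = ((2 * y - 1 : ℤ) : ZMod n) := by rw [hn]
    push_cast at h1
    rw [ZMod.natCast_self] at h1
    linear_combination -h1
  obtain ⟨w1, w2⟩ := W_period ((y : ℤ) : ZMod n) h2 l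
  have hcast : ∀ m, ((Y y m : ℤ) : ZMod n) = Y ((y : ℤ) : ZMod n) m := fun m =>
    (map_XY (Int.castRingHom (ZMod n)) y m).2
  constructor
  · intro h
    apply hns
    refine ⟨(a : ZMod n), ?_⟩
    have h1 : ((a ^ 2 : ℤ) : ZMod n) = ((Y y (6 * l + 4) + Y y (6 * l + 3) : ℤ) : ZMod n) := by
      rw [h]
    rw [Int.cast_add, hcast, hcast, w1] at h1
    push_cast at h1 ⊢
    rw [← h1, sq]
  · intro h
    apply hns
    refine ⟨(a : ZMod n), ?_⟩
    have h1 : ((a ^ 2 : ℤ) : ZMod n) = ((Y y (6 * l + 6) + Y y (6 * l + 5) : ℤ) : ZMod n) := by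
      rw [h]
    rw [Int.cast_add, hcast, hcast, w2] at h1
    push_cast at h1 ⊢
    rw [← h1, sq]

theorem sq_mod_four (a : ℤ) (h : a ^ 2 % 4 = 3) : False := by
  rcases Int.even_or_odd' a with ⟨c, hc | hc⟩
  · have : a ^ 2 = 4 * c ^ 2 := by rw [hc]; ring
    omega
  · have : a ^ 2 = 4 * (c ^ 2 + c) + 1 := by rw [hc]; ring
    omega

theorem sq_mod_four' (a : ℤ) (h : a ^ 2 % 4 = 2) : False := by
  rcases Int.even_or_odd' a with ⟨c, hc | hc⟩
  · have : a ^ 2 = 4 * c ^ 2 := by rw [hc]; ring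
    omega
  · have : a ^ 2 = 4 * (c ^ 2 + c) + 1 := by rw [hc]; ring
    omega

/-- odd base: `W_{2m+1} ≡ 3 mod 4` -/
theorem W_odd_base (y u : ℤ) (hu : y = 2 * u + 1) (m : ℕ) :
    (Y y (2 * m + 2) + Y y (2 * m + 1)) % 4 = 3 := by
  have hX : ∀ m, ∃ c, X y (2 * m) = 4 * c + 1 ∧ ∃ c', Y y (2 * m) = 4 * c' + 2 * m := by
    intro m
    induction m with
    | zero => exact ⟨0, by simp [X_zero], 0, by simp [Y_zero]⟩
    | succ m ih =>
      obtain ⟨c, h1, c', h2⟩ := ih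
      rw [show 2 * (m + 1) = 2 * m + 1 + 1 by ring, X_succ y (2 * m + 1), Y_succ y (2 * m + 1),
        X_succ y (2 * m), Y_succ y (2 * m), h1, h2, hu]
      push_cast
      refine ⟨(2 * u ^ 2 + 2 * u) + c * (8 * u ^ 2 + 8 * u + 1)
        + 2 * (u ^ 2 + u) * (2 * u + 1) * (4 * c' + 2 * m), by ring, ?_⟩
      refine ⟨u + 2 * (2 * u + 1) * c + c' * (8 * u ^ 2 + 8 * u + 1)
        + 4 * (u ^ 2 + u) * m, by ring⟩
  obtain ⟨c, h1, c', h2⟩ := hX m
  rw [Y_succ y (2 * m + 1), X_succ y (2 * m), Y_succ y (2 * m), h1, h2, hu]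
  have key : ∀ w : ℤ, w = 4 * (c * (4 * u + 3) + u + c' * (8 * u ^ 2 + 10 * u + 2)
      + m * (4 * u ^ 2 + 5 * u + 1)) + 3 → w % 4 = 3 := by
    intro w hw
    omega
  apply key
  ring

theorem W_odd (y : ℤ) (l : ℕ) : ∃ u, Y y (2 * l + 1) + Y y (2 * l) = 2 * u + 1 := by
  rw [Y_succ, X_two_mul, Y_two_mul]
  exact ⟨X y l ^ 2 - 1 + y * (X y l * Y y l) + X y l * Y y l, by ring⟩

theorem X_eq_W (y : ℤ) (k : ℕ) :
    X y (2 * k + 1) = 1 + (y - 1) * (Y y (k + 1) + Y y k) ^ 2 := by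
  rw [show 2 * k + 1 = (k + 1) + k by ring, X_add, X_succ, Y_succ]
  linear_combination pell y k

theorem W_triple (y : ℤ) (k : ℕ) :
    Y y (3 * k + 2) + Y y (3 * k + 1) = (Y y (k + 1) + Y y k) * (2 * X y (2 * k + 1) + 1) := by
  rw [show 3 * k + 2 = (2 * k + 1) + (k + 1) by ring, show 3 * k + 1 = (2 * k + 1) + k by ring,
    Y_add y (2 * k + 1) (k + 1), Y_add y (2 * k + 1) k]
  have h1 : Y y (2 * k + 1) = X y k * Y y (k + 1) + Y y k * X y (k + 1) := by
    rw [show 2 * k + 1 = k + (k + 1) by ring, Y_add]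
  have h2 : X y (2 * k + 1) = X y k * X y (k + 1) + (y ^ 2 - 1) * (Y y k * Y y (k + 1)) := by
    rw [show 2 * k + 1 = k + (k + 1) by ring, X_add]
  rw [h1, h2, X_succ, Y_succ]
  linear_combination (X y k + y * Y y k + Y y k) * pell y k

theorem W_pos (y : ℤ) (hy : 1 ≤ y) (k : ℕ) : 1 ≤ Y y (k + 1) + Y y k := by
  have h1 := Y_succ_pos y hy k
  have h2 := (pos_XY y hy k).2
  omega

theorem theoremW (y : ℤ) (hy : 2 ≤ y) (k : ℕ) (a : ℤ) (ha : a ^ 2 = Y y (k + 1) + Y y k) :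
    k = 0 ∨ k = 1 := by
  rcases Nat.even_or_odd' k with ⟨l, hl | hl⟩
  · left
    rw [hl] at ha
    have := theoremM y hy l a ha
    omega
  · rcases Int.even_or_odd' y with ⟨u, hu | hu⟩
    · -- even base
      have hk : k % 6 = 1 ∨ k % 6 = 3 ∨ k % 6 = 5 := by omega
      rcases hk with hk | hk | hk
      · obtain ⟨j, hj⟩ : ∃ j, k = 3 * (2 * j) + 1 := ⟨k / 6, by omega⟩
        rw [hj, W_triple, X_eq_W] at ha
        obtain ⟨W, hW⟩ : ∃ W, W = Y y (2 * j + 1) + Y y (2 * j) := ⟨_, rfl⟩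
        have hWpos := W_pos y (by omega) (2 * j)
        rw [← hW] at ha hWpos
        obtain ⟨w0, hw0⟩ := W_odd y j
        rw [← hW] at hw0
        right
        by_cases h3 : (3 : ℤ) ∣ W
        · exfalso
          obtain ⟨w, hw⟩ := h3
          have hwpos : 0 ≤ w := by omega
          have h3a : (3 : ℤ) ∣ a := by
            apply Int.prime_three.dvd_of_dvd_pow (n := 2)
            rw [ha, hw, mul_assoc]
            exact dvd_mul_right _ _
          obtain ⟨b, hb⟩ := h3a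
          have hb2 : (6 * (y - 1) * w ^ 2 + 1) * w = b ^ 2 := by
            rw [hw, hb] at ha
            have : (9 : ℤ) * ((6 * (y - 1) * w ^ 2 + 1) * w) = 9 * b ^ 2 := by
              linear_combination -ha
            omega
          have hcop : IsCoprime (6 * (y - 1) * w ^ 2 + 1) w := ⟨1, -(6 * (y - 1) * w), by ring⟩
          have hnn : 0 ≤ 6 * (y - 1) * w ^ 2 + 1 := by
            have : 0 ≤ y - 1 := by omega
            positivity
          obtain ⟨f, hf⟩ := sq_of_coprime hcop hnn hb2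
          apply sq_mod_four f
          obtain ⟨w1, hw1⟩ : ∃ w1, w = 2 * w1 + 1 := ⟨w / 2, by omega⟩
          rw [hf, hu, hw1]
          have key : ∀ w : ℤ, w = 4 * (3 * (2 * u - 1) * (2 * w1 ^ 2 + 2 * w1) + 3 * u - 2) + 3 →
              w % 4 = 3 := by
            intro w hw
            omega
          apply key
          ring
        · have hcop : IsCoprime W (2 * (1 + (y - 1) * W ^ 2) + 1) := by
            have h1 : IsCoprime (3 : ℤ) W := by
              rw [Prime.coprime_iff_not_dvd Int.prime_three]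
              exact h3
            obtain ⟨s, t, hst⟩ := h1
            refine ⟨t - 2 * s * (y - 1) * W, s, ?_⟩
            linear_combination hst
          obtain ⟨r, hr⟩ := sq_of_coprime hcop (by omega) ha.symm
          rw [hW] at hr
          have := theoremM y hy j r hr
          omega
      · exfalso
        obtain ⟨j, hj⟩ : ∃ j, k = 6 * j + 3 := ⟨k / 6, by omega⟩
        rw [hj] at ha
        exact (W_not_sq_mod y hy u hu a j).1 ha
      · exfalso
        obtain ⟨j, hj⟩ : ∃ j, k = 6 * j + 5 := ⟨k / 6, by omega⟩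
        rw [hj] at ha
        exact (W_not_sq_mod y hy u hu a j).2 ha
    · -- odd base
      exfalso
      apply sq_mod_four a
      rw [ha, hl]
      exact W_odd_base y u hu l

end Pool.Agent.Lib.MP_66b831_nt
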