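import Mathlib
import Pool.Agent.Lib.MP_66b831_nt.ThmW

set_option autoImplicit false

namespace Pool.Agent.Lib.MP_66b831_nt

/-- last step of the descent: `τ⁴ - 8 r² s² = 1` forces `τ² = 1` -/
theorem quartic_one (τ r s : ℤ) (h : τ ^ 4 - 8 * (r * s) ^ 2 = 1) : τ ^ 2 = 1 := by
  have hodd : ∃ q, τ ^ 2 = 8 * q + 1 := by
    rcases Int.even_or_odd' τ with ⟨c, hc | hc⟩
    · exfalso
      rw [hc] at h
      have : (2 : ℤ) * (8 * c ^ 4 - 4 * (r * s) ^ 2) = 1 := by linear_combination h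
      omega
    · have h2 : ∃ e, c * (c + 1) = 2 * e := by
        obtain ⟨e, he⟩ := Int.even_mul_succ_self c
        exact ⟨e, by omega⟩
      obtain ⟨e, he⟩ := h2
      exact ⟨e, by rw [hc]; linear_combination 4 * he⟩
  obtain ⟨q, hq⟩ := hodd
  have h1 : (2 * q) * (4 * q + 1) = (r * s) ^ 2 := by
    have : (8 : ℤ) * ((2 * q) * (4 * q + 1)) = 8 * (r * s) ^ 2 := by
      linear_combination h - (τ ^ 2 + 8 * q + 1) * hq
    omega
  have hq0 : 0 ≤ q := by
    have := sq_nonneg τ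
    omega
  obtain ⟨w, hw⟩ := sq_of_coprime (a := 2 * q) (b := 4 * q + 1) (c := r * s)
    ⟨-2, 1, by ring⟩ (by omega) h1
  have h2 : (τ - 2 * w) * (τ + 2 * w) = 1 := by linear_combination hq - 4 * hw
  rcases Int.mul_eq_one_iff_eq_one_or_neg_one.mp h2 with ⟨h3, h4⟩ | ⟨h3, h4⟩
  · have : τ = 1 := by omega
    rw [this]; norm_num
  · have : τ = -1 := by omega
    rw [this]; norm_num

/-- middle step -/
theorem middle_step (σ τ e : ℤ) (he : e ≠ 0) (h1 : τ ^ 4 - 4 * σ ^ 2 * τ ^ 2 + 2 * σ ^ 4 = -1)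
    (h2 : e ^ 2 = σ ^ 4 + (σ ^ 2 - τ ^ 2) ^ 2) (hcop : IsCoprime (σ ^ 2) (σ ^ 2 - τ ^ 2)) :
    σ ^ 2 = 1 ∧ τ ^ 2 = 1 := by
  have hσ : (σ ^ 2) % 2 = 1 := by
    rcases Int.even_or_odd' σ with ⟨c, hc | hc⟩
    · exfalso
      rcases Int.even_or_odd' τ with ⟨d, hd | hd⟩
      · rw [hc, hd] at h1
        have : (2 : ℤ) * (8 * d ^ 4 - 32 * c ^ 2 * d ^ 2 + 16 * c ^ 4) = -1 := by
          linear_combination h1
        omega
      · rw [hc, hd] at h1
        have : (4 : ℤ) * (4 * d ^ 4 + 8 * d ^ 3 + 6 * d ^ 2 + 2 * d - 4 * c ^ 2 * (2 * d + 1) ^ 2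
          + 8 * c ^ 4) = -2 := by
          linear_combination h1
        omega
    · have : σ ^ 2 = 2 * (2 * c ^ 2 + 2 * c) + 1 := by rw [hc]; ring
      omega
  have hpt : PythagoreanTriple (σ ^ 2) (σ ^ 2 - τ ^ 2) |e| := by
    show σ ^ 2 * σ ^ 2 + (σ ^ 2 - τ ^ 2) * (σ ^ 2 - τ ^ 2) = |e| * |e|
    rw [abs_mul_abs_self]
    linear_combination -h2
  obtain ⟨r, s, hr1, hr2, hr3, -⟩ := PythagoreanTriple.coprime_classification' hpt
    (Int.isCoprime_iff_gcd_eq_one.mp hcop) hσ (abs_pos.mpr he)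
  have h3 : τ ^ 4 - 8 * (r * s) ^ 2 = 1 := by
    linear_combination (-1 : ℤ) * h1 + 2 * (σ ^ 2 - τ ^ 2 + 2 * r * s) * hr2
  have h4 := quartic_one τ r s h3
  refine ⟨?_, h4⟩
  have h5 : (r * s) ^ 2 = 0 := by
    have : τ ^ 4 = 1 := by
      have : τ ^ 4 = (τ ^ 2) ^ 2 := by ring
      rw [this, h4]; norm_num
    omega
  have h6 : r * s = 0 := by
    exact pow_eq_zero_iff (two_ne_zero) |>.mp h5
  linear_combination hr2 + h4 + 2 * h6

theorem lemmaD (t e c : ℤ) (h1 : e ^ 2 = 2 * t ^ 2 - 1) (h2 : c ^ 2 = 2 * e ^ 4 - 1) :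
    t ^ 2 = 1 := by
  have he : e ≠ 0 := by
    intro h
    rw [h] at h1
    omega
  have he2 : 0 < e ^ 2 := by positivity
  have htpos : 0 < t ^ 2 := by omega
  obtain ⟨d, hd⟩ : ∃ d, c = 2 * d + 1 := by
    rcases Int.even_or_odd' c with ⟨d, hd | hd⟩
    · exfalso
      rw [hd] at h2
      have : (2 : ℤ) * (e ^ 4 - 2 * d ^ 2) = 1 := by linear_combination -h2
      omega
    · exact ⟨d, hd⟩
  have h3 : (d + 1) ^ 2 + d ^ 2 = (e ^ 2) ^ 2 := by
    have : (2 : ℤ) * ((d + 1) ^ 2 + d ^ 2) = 2 * (e ^ 2) ^ 2 := by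
      rw [hd] at h2
      linear_combination h2
    omega
  rcases Int.even_or_odd' d with ⟨f, hf | hf⟩
  · have hpt : PythagoreanTriple (d + 1) d (e ^ 2) := by
      show (d + 1) * (d + 1) + d * d = e ^ 2 * e ^ 2
      linear_combination h3
    have hcop : Int.gcd (d + 1) d = 1 :=
      Int.isCoprime_iff_gcd_eq_one.mp ⟨1, -1, by ring⟩
    obtain ⟨m, n, hm1, hm2, hm3, hm4, -, hm5⟩ :=
      PythagoreanTriple.coprime_classification' hpt hcop (by omega) he2
    obtain ⟨p, q, hpq⟩ := Int.isCoprime_iff_gcd_eq_one.mpr hm4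
    have ht : m * (m - n) = t ^ 2 := by
      have : (2 : ℤ) * (m * (m - n)) = 2 * t ^ 2 := by
        linear_combination (-1 : ℤ) * hm3 + h1 + hm2 - hm1
      omega
    have hmpos : 0 < m := by
      rcases hm5.lt_or_eq with h | h
      · exact h
      · rw [← h] at ht
        omega
    have hmn : 0 ≤ m - n := by
      by_contra hc
      push Not at hc
      have := mul_neg_of_pos_of_neg hmpos hc
      omega
    obtain ⟨σ, hσ⟩ := sq_of_coprime (a := m) (b := m - n) (c := t)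
      ⟨p + q, -q, by linear_combination hpq⟩ hm5 ht
    obtain ⟨τ, hτ⟩ := sq_of_coprime (a := m - n) (b := m) (c := t)
      ⟨-q, p + q, by linear_combination hpq⟩ hmn (by rw [mul_comm]; exact ht)
    have hn : n = σ ^ 2 - τ ^ 2 := by omega
    obtain ⟨g1, g2⟩ := middle_step σ τ e he
      (by rw [← hσ] at hm1 hm2; rw [hn] at hm1 hm2; linear_combination hm1 - hm2)
      (by rw [hm3, hn, ← hσ]; ring)
      (by rw [← hn, hσ]; exact ⟨p, q, hpq⟩)
    rw [← ht, ← hτ, ← hσ, g1, g2]; norm_num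
  · have hpt : PythagoreanTriple d (d + 1) (e ^ 2) := by
      show d * d + (d + 1) * (d + 1) = e ^ 2 * e ^ 2
      linear_combination h3
    have hcop : Int.gcd d (d + 1) = 1 :=
      Int.isCoprime_iff_gcd_eq_one.mp ⟨-1, 1, by ring⟩
    obtain ⟨m, n, hm1, hm2, hm3, hm4, -, hm5⟩ :=
      PythagoreanTriple.coprime_classification' hpt hcop (by omega) he2
    obtain ⟨p, q, hpq⟩ := Int.isCoprime_iff_gcd_eq_one.mpr hm4
    have ht : n * (n + m) = t ^ 2 := by
      have : (2 : ℤ) * (n * (n + m)) = 2 * t ^ 2 := by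
        linear_combination (-1 : ℤ) * hm3 + h1 + hm1 - hm2
      omega
    rcases lt_trichotomy n 0 with hn0 | hn0 | hn0
    · have hmn : 0 ≤ -(n + m) := by
        by_contra hc
        push Not at hc
        have := mul_neg_of_neg_of_pos hn0 (by omega : 0 < n + m)
        omega
      obtain ⟨σ, hσ⟩ := sq_of_coprime (a := -n) (b := -(n + m)) (c := t)
        ⟨p - q, -p, by linear_combination hpq⟩ (by omega) (by rw [← ht]; ring)
      obtain ⟨τ, hτ⟩ := sq_of_coprime (a := -(n + m)) (b := -n) (c := t)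
        ⟨-p, p - q, by linear_combination hpq⟩ hmn (by rw [← ht]; ring)
      have hm : m = σ ^ 2 - τ ^ 2 := by omega
      have hn : n = -σ ^ 2 := by omega
      obtain ⟨g1, g2⟩ := middle_step σ τ e he
        (by rw [hn, hm] at hm1 hm2; linear_combination hm2 - hm1)
        (by rw [hm3, hm, hn]; ring)
        (by rw [← hm, hσ]; exact ⟨-q, p, by linear_combination hpq⟩)
      have hn1 : n = -1 := by omega
      have hm1 : m = 0 := by omega
      rw [← ht, hn1, hm1]; norm_num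
    · rw [hn0] at ht
      omega
    · have hmn : 0 ≤ n + m := by omega
      obtain ⟨σ, hσ⟩ := sq_of_coprime (a := n) (b := n + m) (c := t)
        ⟨q - p, p, by linear_combination hpq⟩ (by omega) ht
      obtain ⟨τ, hτ⟩ := sq_of_coprime (a := n + m) (b := n) (c := t)
        ⟨p, q - p, by linear_combination hpq⟩ hmn (by rw [← ht]; ring)
      have hm : m = τ ^ 2 - σ ^ 2 := by omega
      have hn : n = σ ^ 2 := by omega
      obtain ⟨g1, g2⟩ := middle_step σ τ e he
        (by rw [hn, hm] at hm1 hm2; linear_combination hm2 - hm1)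
        (by rw [hm3, hm, hn]; ring)
        (by
          have : σ ^ 2 - τ ^ 2 = -m := by omega
          rw [this, hσ]; exact ⟨q, -p, by linear_combination hpq⟩)
      have hn1 : n = 1 := by omega
      have hm1 : m = 0 := by omega
      rw [← ht, hn1, hm1]; norm_num

/-- odd base: parity of the two sequences -/
theorem parity_odd_base (y u : ℤ) (hu : y = 2 * u + 1) (n : ℕ) :
    (∃ v, X y n = 2 * v + 1) ∧ ∃ w, Y y n = 2 * w + n := by
  induction n with
  | zero => exact ⟨⟨0, by simp [X_zero]⟩, ⟨0, by simp [Y_zero]⟩⟩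
  | succ n ih =>
    obtain ⟨⟨v, hv⟩, ⟨w, hw⟩⟩ := ih
    rw [X_succ, Y_succ, hv, hw, hu]
    push_cast
    refine ⟨⟨2 * u * v + u + v + (2 * u ^ 2 + 2 * u) * (2 * w + n), by ring⟩,
      ⟨v + (2 * u + 1) * w + u * n, by ring⟩⟩

/-- odd base: `B_j` is not a square for `j ≥ 2` when the base is `2 y² - 1` -/
theorem theoremU (y : ℤ) (hy : 2 ≤ y) (j : ℕ) (hj : 1 ≤ j) (b : ℤ)
    (hb : b ^ 2 = Y (2 * y ^ 2 - 1) j) : j = 1 := by
  obtain ⟨Z, hZ⟩ : ∃ Z, Z = 2 * y ^ 2 - 1 := ⟨_, rfl⟩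
  have hZ7 : 7 ≤ Z := by nlinarith
  obtain ⟨u, hu⟩ : ∃ u, Z = 2 * u + 1 := ⟨y ^ 2 - 1, by rw [hZ]; ring⟩
  rw [← hZ] at hb
  rcases Nat.even_or_odd' j with ⟨i, hi | hi⟩
  · exfalso
    rcases Nat.even_or_odd' i with ⟨l, hl | hl⟩
    · -- j = 4 l
      have hl1 : 1 ≤ l := by omega
      have hXl := (pos_XY Z (by omega) l).1
      have hX2l := (pos_XY Z (by omega) (2 * l)).1
      have hYl := (pos_XY Z (by omega) l).2
      have hpl := pell Z l
      rw [hi, Y_two_mul, hl, Y_two_mul] at hb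
      obtain ⟨b', hb'⟩ : ∃ b', b = 2 * b' := by
        rcases Int.even_or_odd' b with ⟨c, hc | hc⟩
        · exact ⟨c, hc⟩
        · exfalso
          rw [hc] at hb
          have : (2 : ℤ) * (X Z (2 * l) * (2 * X Z l * Y Z l) - 2 * c ^ 2 - 2 * c) = 1 := by
            linear_combination -hb
          omega
      have hb2 : X Z (2 * l) * (X Z l * Y Z l) = b' ^ 2 := by
        rw [hb'] at hb
        have : (4 : ℤ) * (X Z (2 * l) * (X Z l * Y Z l)) = 4 * b' ^ 2 := by
          linear_combination -hb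
        omega
      have hX2 := X_two_mul Z l
      have hc1 : IsCoprime (X Z (2 * l)) (X Z l) :=
        ⟨-1, 2 * X Z l, by linear_combination (-1 : ℤ) * hX2⟩
      have hc2 : IsCoprime (X Z (2 * l)) (Y Z l) :=
        ⟨1, -(2 * (Z ^ 2 - 1) * Y Z l), by linear_combination hX2 + 2 * hpl⟩
      have hc3 : IsCoprime (X Z l) (Y Z l) :=
        ⟨X Z l, -((Z ^ 2 - 1) * Y Z l), by linear_combination hpl⟩
      obtain ⟨c, hc⟩ := sq_of_coprime (hc1.mul_right hc2) (by omega) hb2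
      obtain ⟨e, he⟩ := sq_of_coprime (hc1.symm.mul_right hc3) (by omega)
        (show X Z l * (X Z (2 * l) * Y Z l) = b' ^ 2 by rw [← hb2]; ring)
      have hbc := (base_change y l).1
      rw [← hZ, X_two_mul] at hbc
      have h1 : e ^ 2 = 2 * (X y l) ^ 2 - 1 := by rw [he, ← hbc]
      have h2 : c ^ 2 = 2 * e ^ 4 - 1 := by
        rw [hc, hX2, ← he]; ring
      have ht := lemmaD (X y l) e c h1 h2
      have hp := pell y l
      rw [ht] at hp
      obtain ⟨l', hl'⟩ : ∃ l', l = l' + 1 := ⟨l - 1, by omega⟩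
      have hYpos := Y_succ_pos y (by omega) l'
      rw [← hl'] at hYpos
      have : 0 < (y ^ 2 - 1) * Y y l ^ 2 := by
        have h3 : 0 < y ^ 2 - 1 := by nlinarith
        positivity
      omega
    · -- j = 2 (2 l + 1)
      rw [hi, Y_two_mul] at hb
      obtain ⟨⟨v, hv⟩, ⟨w, hw⟩⟩ := parity_odd_base Z u hu i
      apply sq_mod_four' b
      rw [hb, hv, hw, hl]
      have key : ∀ x : ℤ, x = 4 * (2 * v * w + w + v * (2 * l + 1) + l) + 2 → x % 4 = 2 := by
        intro x hx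
        omega
      apply key
      push_cast
      ring
  · -- j = 2 i + 1
    have hfac : Y Z (2 * i + 1) = (Y Z (i + 1) + Y Z i) * (Y Z (i + 1) - Y Z i) := by
      rw [show 2 * i + 1 = (i + 1) + i by ring, Y_add, X_succ, Y_succ]
      ring
    have hpos := W_pos Z (by omega) i
    have hsub := Y_sub Z i
    obtain ⟨-, w, hw⟩ := parity_odd_base Z u hu (2 * i + 1)
    have hcop : IsCoprime (Y Z (i + 1) + Y Z i) (Y Z (i + 1) - Y Z i) := by
      push_cast at hw
      rw [hfac] at hw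
      refine ⟨(Y Z (i + 1) - Y Z i) - (w + i) * (X Z i - X Z (i + 1)),
        -(w + i) * (X Z i + X Z (i + 1)), ?_⟩
      linear_combination hw - 2 * (w + i) * hsub
    rw [hi, hfac] at hb
    obtain ⟨r, hr⟩ := sq_of_coprime hcop (by omega) hb.symm
    rcases theoremW Z (by omega) i r hr with h | h
    · omega
    · exfalso
      apply sq_mod_four r
      rw [hr, h, Y_succ, X_one, Y_one, hZ]
      omega

end Pool.Agent.Lib.MP_66b831_nt
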