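import Mathlib
import Pool.Agent.Lib.MP_66b831_nt.ThmU

set_option autoImplicit false

namespace Pool.Agent.Lib.MP_66b831_nt

theorem exists_index (y : ℤ) (hy : 2 ≤ y) (m : ℕ) : ∀ (x w : ℤ), 1 ≤ x → 0 ≤ w → w ≤ m →
    x ^ 2 - 1 = w ^ 2 * (y ^ 2 - 1) → ∃ n : ℕ, x = X y n ∧ w = Y y n := by
  induction m with
  | zero =>
    intro x w hx hw hwm h
    have hw0 : w = 0 := by
      push_cast at hwm
      omega
    subst hw0
    have hx1 : x = 1 := by nlinarith
    exact ⟨0, by rw [hx1, X_zero], by rw [Y_zero]⟩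
  | succ m ih =>
    intro x w hx hw hwm h
    rcases hw.lt_or_eq with hw1 | hw1
    · have hw2 : 1 ≤ w ^ 2 := by nlinarith
      have hD : 3 ≤ y ^ 2 - 1 := by nlinarith
      have g1 : 0 ≤ y * w - x := by
        by_contra hc
        push Not at hc
        have h1 : y * w < x := by omega
        have h0 : 0 ≤ y * w := by positivity
        have h2 : (y * w) ^ 2 < x ^ 2 := pow_lt_pow_left₀ h1 h0 (by norm_num)
        nlinarith
      have g2 : y * w - x < w := by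
        by_contra hc
        push Not at hc
        have h1 : x ≤ (y - 1) * w := by linarith
        have h2 : x ^ 2 ≤ ((y - 1) * w) ^ 2 := pow_le_pow_left₀ (by omega) h1 2
        have h3 : x ^ 2 = 1 + w ^ 2 * (y ^ 2 - 1) := by linarith
        have h4 : 1 + 2 * (y - 1) * w ^ 2 ≤ 0 := by
          rw [h3] at h2
          linarith
        have h5 : 0 ≤ 2 * (y - 1) * w ^ 2 := by
          have : 0 ≤ y - 1 := by omega
          positivity
        omega
      have g3 : 1 ≤ y * x - (y ^ 2 - 1) * w := by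
        by_contra hc
        push Not at hc
        have h1 : y * x ≤ (y ^ 2 - 1) * w := by omega
        have h2 : (y * x) ^ 2 ≤ ((y ^ 2 - 1) * w) ^ 2 := pow_le_pow_left₀ (by positivity) h1 2
        have h3 : ((y ^ 2 - 1) * w) ^ 2 = (y ^ 2 - 1) * (x ^ 2 - 1) := by rw [h]; ring
        have h4 : x ^ 2 + (y ^ 2 - 1) ≤ 0 := by
          rw [h3] at h2
          linarith
        have h5 := sq_nonneg x
        omega
      obtain ⟨n, hn1, hn2⟩ := ih (y * x - (y ^ 2 - 1) * w) (y * w - x) g3 g1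
        (by push_cast at hwm; omega) (by linear_combination h)
      refine ⟨n + 1, ?_, ?_⟩
      · rw [X_succ, ← hn1, ← hn2]; ring
      · rw [Y_succ, ← hn1, ← hn2]; ring
    · rw [← hw1] at h ⊢
      exact ih x 0 hx le_rfl (by positivity) h

/-- residues modulo `2 y` of differences of consecutive values -/
theorem diff_mod (y : ℤ) (i : ℕ) :
    (∃ u, Y y (i + 1) - Y y i = 2 * y * u + 1) ∨ ∃ u, Y y (i + 1) - Y y i = 2 * y * u - 1 := by
  have h : ∀ l : ℕ, (∃ u, Y y (2 * l) = 2 * y * u) ∧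
      ((∃ u, Y y (2 * l + 1) = 2 * y * u + 1) ∨ ∃ u, Y y (2 * l + 1) = 2 * y * u - 1) := by
    intro l
    induction l with
    | zero => exact ⟨⟨0, by simp [Y_zero]⟩, Or.inl ⟨0, by simp [Y_one]⟩⟩
    | succ l ih =>
      obtain ⟨⟨u, hu⟩, h1⟩ := ih
      have e1 : Y y (2 * (l + 1)) = 2 * y * Y y (2 * l + 1) - Y y (2 * l) := by
        rw [show 2 * (l + 1) = 2 * l + 2 by ring, Y_rec]
      have e2 : Y y (2 * (l + 1) + 1) = 2 * y * Y y (2 * (l + 1)) - Y y (2 * l + 1) := by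
        rw [show 2 * (l + 1) + 1 = (2 * l + 1) + 2 by ring, Y_rec]
        rfl
      refine ⟨⟨Y y (2 * l + 1) - u, by rw [e1, hu]; ring⟩, ?_⟩
      rcases h1 with ⟨v, hv⟩ | ⟨v, hv⟩
      · right
        exact ⟨Y y (2 * (l + 1)) - v, by rw [e2, hv]; ring⟩
      · left
        exact ⟨Y y (2 * (l + 1)) - v, by rw [e2, hv]; ring⟩
  rcases Nat.even_or_odd' i with ⟨l, hl | hl⟩
  · obtain ⟨⟨u, hu⟩, ⟨v, hv⟩ | ⟨v, hv⟩⟩ := h l
    · left; exact ⟨v - u, by rw [hl, hu, hv]; ring⟩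
    · right; exact ⟨v - u, by rw [hl, hu, hv]; ring⟩
  · obtain ⟨-, h1⟩ := h l
    obtain ⟨⟨u, hu⟩, -⟩ := h (l + 1)
    rw [show 2 * (l + 1) = 2 * l + 1 + 1 by ring] at hu
    rcases h1 with ⟨v, hv⟩ | ⟨v, hv⟩
    · right; exact ⟨u - v, by rw [hl, hu, hv]; ring⟩
    · left; exact ⟨u - v, by rw [hl, hu, hv]; ring⟩

theorem even_index (y z : ℤ) (hy : 2 ≤ y) (i : ℕ) (h : z ^ 2 - 1 = Y y (2 * (i + 1))) : i = 0 := by
  have hsub := Y_sub y i
  have hfac : Y y (2 * (i + 1)) + 1 =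
      (Y y (i + 2) + Y y (i + 1)) * (Y y (i + 1) - Y y i) := by
    rw [Y_two_mul, Y_rec, X_succ, Y_succ]
    linear_combination (-1 : ℤ) * pell y i
  have h1 : (Y y (i + 2) + Y y (i + 1)) * (Y y (i + 1) - Y y i) = z ^ 2 := by
    rw [← hfac, ← h]; ring
  -- coprime
  have hc1 : IsCoprime (Y y (i + 1) - Y y i) (Y y (i + 1)) :=
    ⟨X y (i + 1), X y i - X y (i + 1), by linear_combination hsub⟩
  have hc2 : IsCoprime (Y y (i + 1) - Y y i) (2 * y) := by
    rcases diff_mod y i with ⟨u, hu⟩ | ⟨u, hu⟩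
    · exact ⟨1, -u, by linear_combination hu⟩
    · exact ⟨-1, u, by linear_combination -hu⟩
  have hc3 : IsCoprime (Y y (i + 2) + Y y (i + 1)) (Y y (i + 1) - Y y i) := by
    have h2 : Y y (i + 2) + Y y (i + 1) = (Y y (i + 1) - Y y i) * 1 + 2 * y * Y y (i + 1) := by
      rw [Y_rec]; ring
    rw [h2]
    exact (IsCoprime.mul_add_left_left_iff.mpr (hc2.mul_right hc1).symm)
  have hpos : 1 ≤ Y y (i + 2) + Y y (i + 1) := W_pos y (by omega) (i + 1)
  obtain ⟨r, hr⟩ := sq_of_coprime hc3 (by omega) h1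
  rcases theoremW y hy (i + 1) r hr with h3 | h3 <;> omega

theorem odd_index (y z : ℤ) (hy : 2 ≤ y) (k : ℕ) (h : z ^ 2 - 1 = Y y (2 * k + 1)) : k = 1 := by
  have hsub := Y_sub y k
  have hfac : Y y (2 * k + 1) + 1 = 2 * (X y k * Y y (k + 1)) := by
    rw [show 2 * k + 1 = k + (k + 1) by ring, Y_add]
    linear_combination -hsub
  have h1 : z ^ 2 = 2 * (X y k * Y y (k + 1)) := by rw [← hfac, ← h]; ring
  rcases Nat.even_or_odd' k with ⟨l, hl | hl⟩
  · exfalso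
    apply sq_mod_four' z
    rw [h1, hl, Y_succ, X_two_mul, Y_two_mul]
    have key : ∀ x : ℤ, x = 4 * (2 * X y l ^ 4 - 2 * X y l ^ 2
        + y * (X y l * Y y l) * (2 * X y l ^ 2 - 1)) + 2 → x % 4 = 2 := by
      intro x hx
      omega
    apply key
    ring
  · obtain ⟨b1, b2⟩ := base_change y l
    obtain ⟨-, b3⟩ := base_change y (l + 1)
    obtain ⟨Z, hZ⟩ : ∃ Z, Z = 2 * y ^ 2 - 1 := ⟨_, rfl⟩
    rw [← hZ] at b1 b2 b3
    have hXk : X y k = y * (Y Z (l + 1) - Y Z l) := by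
      rw [hl, X_succ, b1, b2, Y_succ Z l, hZ]; ring
    have hYk : Y y (k + 1) = 2 * y * Y Z (l + 1) := by
      rw [hl, show 2 * l + 1 + 1 = 2 * (l + 1) by ring, b3]
    have h2 : z ^ 2 = (2 * y) ^ 2 * (Y Z (l + 1) * (Y Z (l + 1) - Y Z l)) := by
      rw [h1, hXk, hYk]; ring
    obtain ⟨z', hz'⟩ : (2 * y) ∣ z := by
      rw [← Int.pow_dvd_pow_iff (n := 2) (by norm_num), h2]
      exact dvd_mul_right _ _
    have hy0 : (2 * y) ^ 2 ≠ 0 := by positivity
    have h3 : Y Z (l + 1) * (Y Z (l + 1) - Y Z l) = z' ^ 2 := by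
      apply mul_left_cancel₀ hy0
      rw [← h2, hz']; ring
    have hsZ := Y_sub Z l
    have hc : IsCoprime (Y Z (l + 1)) (Y Z (l + 1) - Y Z l) :=
      ⟨X Z l - X Z (l + 1), X Z (l + 1), by linear_combination hsZ⟩
    have hZ2 : 1 ≤ Z := by nlinarith
    have hpos := Y_succ_pos Z hZ2 l
    obtain ⟨b, hb⟩ := sq_of_coprime hc (by omega) h3
    rw [hZ] at hb
    have := theoremU y hy (l + 1) (by omega) b hb
    omega

/-- The main classification. -/
theorem classification (x y z : ℤ) (hx : 1 < x) (hy : 1 < y) (hz : 1 < z)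
    (h : x ^ 2 - 1 = (z ^ 2 - 1) ^ 2 * (y ^ 2 - 1)) :
    (∃ m : ℤ, 2 ≤ m ∧ x = m * (4 * m ^ 2 - 3) ∧ y = m ∧ z = 2 * m) ∨
    (∃ m : ℤ, 1 ≤ m ∧ x = 8 * m ^ 4 + 16 * m ^ 3 + 8 * m ^ 2 - 1 ∧
        y = 2 * m ^ 2 + 2 * m ∧ z = 2 * m + 1) := by
  have hz3 : 3 ≤ z ^ 2 - 1 := by nlinarith
  obtain ⟨n, hn1, hn2⟩ := exists_index y hy (z ^ 2 - 1).toNat x (z ^ 2 - 1) (by omega) (by omega)
    (by omega) h
  rcases Nat.even_or_odd' n with ⟨k, hk | hk⟩
  · right
    rcases Nat.eq_zero_or_pos k with hk0 | hk0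
    · exfalso
      rw [hk, hk0, Nat.mul_zero, Y_zero] at hn2
      omega
    · obtain ⟨i, hi⟩ : ∃ i, k = i + 1 := ⟨k - 1, by omega⟩
      rw [hk, hi] at hn2 hn1
      have hi0 := even_index y z hy i hn2
      rw [hi0] at hn1 hn2
      rw [X_two_mul, X_one] at hn1
      rw [Y_two_mul, X_one, Y_one] at hn2
      obtain ⟨m, hm⟩ : ∃ m, z = 2 * m + 1 := by
        rcases Int.even_or_odd' z with ⟨m, hm | hm⟩
        · exfalso
          rw [hm] at hn2
          have : (2 : ℤ) * (2 * m ^ 2 - y) = 1 := by linear_combination hn2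
          omega
        · exact ⟨m, hm⟩
      have hym : y = 2 * m ^ 2 + 2 * m := by
        rw [hm] at hn2
        have : (2 : ℤ) * y = 2 * (2 * m ^ 2 + 2 * m) := by linear_combination -hn2
        omega
      refine ⟨m, by omega, ?_, hym, hm⟩
      rw [hn1, hym]; ring
  · left
    rw [hk] at hn1 hn2
    have hk1 := odd_index y z hy k hn2
    rw [hk1] at hn1 hn2
    have hX3 : X y (2 * 1 + 1) = y * (4 * y ^ 2 - 3) := by
      rw [X_succ, X_two_mul, Y_two_mul, X_one, Y_one]; ring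
    have hY3 : Y y (2 * 1 + 1) = 4 * y ^ 2 - 1 := by
      rw [Y_succ, X_two_mul, Y_two_mul, X_one, Y_one]; ring
    refine ⟨y, by omega, by rw [hn1, hX3], rfl, ?_⟩
    rw [hY3] at hn2
    have : (z - 2 * y) * (z + 2 * y) = 0 := by linear_combination hn2
    rcases mul_eq_zero.mp this with h1 | h1 <;> omega

end Pool.Agent.Lib.MP_66b831_nt
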